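import Pool.Agent.H837.UF.AltMain

/-!
# Voisin's alternating sums of zero-cycles and rational equivalences of bounded complexity on the
# reductions to positive characteristic

No hypothesis is assumed. Let `X` be a projective variety over the complex numbers, for example a
surface, given by homogeneous equations `S` with coefficients in a finitely generated subring `R` of
the complex numbers. (Every complex projective variety is of this kind.) For every homomorphism `φ`
from `R` to an algebraic closure `F` of the field with `p` elements there is the reduction `X_φ`, the
projective variety over `F` given by the equations with the coefficients `φ(c)`. Let `m, n ≥ 1` and let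
`T` be a finite set of polynomials over `R` in the coordinates of `2 m` points. Consider the zero-cycles

  `a = [z(+, 1)] + … + [z(+, m)] - [z(-, 1)] - … - [z(-, m)]`

of degree zero on `X` such that the points `z(±, i)` satisfy the equations in `T`, and, for such
zero-cycles `a_1, …, a_n`, the alternating sum

  `alt = ∑ sgn(σ) a_σ(1) × … × a_σ(n)`,

a zero-cycle on `X^n` (embedded by the Segre embedding). It is the difference of two effective
zero-cycles, the sum `alt⁺` of the positive terms and the sum `alt⁻` of the negative terms.

**Theorem.** The following are equivalent:

1. for all `a_1, …, a_n` there is `N ≥ 1` such that `N alt` is rationally equivalent to zero on `X^n`;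
2. there is one such `N` for all `a_1, …, a_n`;
3. there are a number `c`, a nonzero `h` in `R` and `p₀` such that for all `p ≥ p₀`, all `φ` with
   `φ(h) ≠ 0` and all such `a_1, …, a_n` on the reduction `X_φ` there is a positive `N ≤ c` such that
   `N alt⁺` and `N alt⁻` are rationally equivalent on `(X_φ)^n` with complexity at most `c`;
4. there is a number `c` such that for all nonzero `h` in `R` and all `p₀` this is true for at least one
   prime `p ≥ p₀` and one `φ` with `φ(h) ≠ 0`.

Here a rational equivalence between two effective zero-cycles `a` and `b` of the same degree has
complexity at most `c` if for an effective zero-cycle `w` of degree `c` the zero-cycles `a + w` and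
`b + w` are the values at `0` and `∞` of a morphism of degree `c` from the projective line to the
symmetric product, embedded by Chow forms.

**Voisin's conjecture.** Let `X` be a smooth surface. The condition that `a` is Albanese-trivial is
closed in the `2 m` points, so it is given by equations `T` (over a suitable `R`), and for `m` larger
than some number the Albanese-trivial zero-cycles of this form generate all of them: one can add and
subtract zero-cycles of degree `m - 1` with prescribed Albanese image. Since the alternating sum is
multilinear in the `a_i` and by the theorem of Roitman it is zero if it is torsion, condition (1) is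
the conjecture of Voisin (Q1) for `X` and `n`, to be proved for `n > p_g(X)`. If `q(X) = 0`, for example
for K3 surfaces, one can take `m = 1` and no equations `T`: `a_i = [x_i] - [y_i]`.

Over an algebraic closure of a finite field all zero-cycles of degree zero on a connected projective
variety are torsion, so that without the bounds the condition in (3) is satisfied for all `n` and all
`p_g`. The theorem says that the conjecture of Voisin is nothing but a bound, uniform in `p`, for the
complexity of the rational equivalences `N alt⁺ ~ N alt⁻` which are known to exist on the reductions if
`n > p_g` (3), and that it is enough to have the bound on one sequence of reductions which is dense (4).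
For `n ≤ p_g` there is no such bound by the theorem of Mumford.

## The proof

* The field of complex numbers is isomorphic, over `R`, to the ultraproduct of the fields `F_j` of
  characteristic `p_j` for every sequence of homomorphisms `φ_j` from `R` to `F_j` such that every
  nonzero element of `R` is mapped to zero only by finitely many of the `φ_j`. The `n`-th power of the
  ultraproduct of the `X_j` is the ultraproduct of their `n`-th powers.
* Two effective zero-cycles on the ultraproduct are rationally equivalent with complexity at most `c` if
  and only if the corresponding zero-cycles over `F_j` are, for almost all `j`.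
* If (3) is false there are such `φ_j` and points over `F_j` for which there is no rational equivalence
  with complexity `j` and `N ≤ j`. The points given by them over the ultraproduct contradict (1). If (4)
  is true then (2) is true with `N = c!`.
-/

set_option autoImplicit false

namespace Pool.Agent.Results.MP_83b46e_ag.AlternatingSumsOverFiniteFields

open MvPolynomial Pool.Agent.Y148.OD Pool.Agent.H837.UF

/-- **Voisin's alternating sums vanish if and only if they vanish with uniformly bounded complexity
over finite fields.** -/
theorem result {R : Type} [CommRing R] [Algebra.FiniteType ℤ R] {r m n : ℕ}
    (S : Finset (MvPolynomial (Fin (r + 1)) R))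
    (T : Finset (MvPolynomial ((Bool × Fin m) × Fin (r + 1)) R)) (hm : 0 < m) (hn : 0 < n)
    (ι : R →+* ℂ) (hι : Function.Injective ι) :
    List.TFAE
      [∀ z : Fin n → Bool × Fin m → Cone S ι, (∀ j, Related T ι fun q => (z j q : _ → ℂ)) →
         ∃ N : ℕ, 1 ≤ N ∧ N • alt (Cone S ι) z = 0,
       ∃ N : ℕ, 1 ≤ N ∧ ∀ z : Fin n → Bool × Fin m → Cone S ι,
         (∀ j, Related T ι fun q => (z j q : _ → ℂ)) → N • alt (Cone S ι) z = 0,
       ∃ (h : R) (c p₀ : ℕ), h ≠ 0 ∧ ∀ (p : ℕ) [Fact p.Prime], p₀ ≤ p →
         ∀ φ : R →+* AlgebraicClosure (ZMod p), φ h ≠ 0 → AltZero S T φ n c,
       ∃ c : ℕ, ∀ h : R, h ≠ 0 → ∀ p₀ : ℕ, ∃ (p : ℕ) (_ : Fact p.Prime)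
         (φ : R →+* AlgebraicClosure (ZMod p)), p₀ ≤ p ∧ φ h ≠ 0 ∧ AltZero S T φ n c] :=
  alt_main S T hm ι hι hn

end Pool.Agent.Results.MP_83b46e_ag.AlternatingSumsOverFiniteFields
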