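import Pool.Agent.H833.Tw.Cov

/-!
# Voisin's conjecture for quotients of products of balanced abelian covers

Let `C_t → B_t` (`t` in a finite set `T`) be Galois covers of smooth projective curves with abelian
Galois groups `G_t`, given by the extensions `(C t).K / (C t).L` of function fields over an
algebraically closed field `k` of characteristic zero, and let `Γ` be any subgroup of `∏ G_t`. The theorem proves
Voisin's conjecture (generalised to all dimensions `d = |T|`; `|T| = 2` is the case of surfaces) for
the quotient `S = (∏ C_t) / Γ` if every nontrivial character of every `G_t` is balanced: it has
`p > 0` pairs of branch points with opposite local monodromies. For example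

* cyclic covers `C : w ^ m = F(x)`, where the rational function `F` has only simple zeros and poles,
  so that the surfaces `w ^ m = F(x) G(t)`, with `p_g = (m - 1) (p - 1) (q - 1)` if `F` and `G` have
  `p` and `q` zeros, are covered;
* all abelian covers of the line whose local monodromies can be arranged in inverse pairs.

The zero-cycles with rational coefficients on `S` are the `Γ`-invariant ones on the product of the
curves, and those in the kernel of the Albanese map (for `|T| = 2`) are those whose push forwards to
the factors are rationally equivalent to zero. The quotient singularities do not change the group of
zero-cycles. For a balanced character `χ ≠ 1` with `r` branch points the `χ`-eigenspace of the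
holomorphic differentials has dimension `g(B) - 1 + r / 2` by the formula of Chevalley and Weil, so
that `pgX Γ` is the dimension of the space of holomorphic `d`-forms on a resolution of `S`.

The proof. Write `CH_0(C) ⊗ k` as the sum of its eigenspaces for the group `G`. The key step is that
the symmetric products of more than `h(χ)` cycles of the `χ`-eigenspace vanish in the group of
zero-cycles of the power of `C`. Given `n = g(B) + p` points of `C`, the theorem of Riemann gives a
function `h` on `B` whose poles are bounded by the images of the points and which takes the same
values at `a_j` and `b_j` for all pairs of branch points but one. Over the line `ℙ¹` of values of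
`h` the norm of the Kummer generator is then, up to `m`-th powers, a power of `(h - α) / (h - β)`,
so that the corresponding curve of twisted effective divisors is rational, and the cycles vanish at
its points over `β`, where a branch point occurs. The rest is the second fundamental theorem of
invariant theory for the symmetric groups, applied to the words in the eigenspaces.
-/

set_option autoImplicit false

namespace Pool.Agent.Results.MP_83b46e_ag.BalancedAbelianCovers

open Pool.Agent.H833.Tw

/-- Let `C_t → B_t`, `t ∈ T`, be abelian covers of curves with groups `G_t` such that all nontrivial
characters of the `G_t` are balanced, and let `Γ` be a subgroup of `∏ G_t`. If `n` is greater than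
the sum of the products `∏ h(η_t)` over the characters `η = (η_t)` of `∏ G_t` which are trivial on
`Γ`, the sum `∑ sgn(σ)^(|T|+1) a_σ(1) × ... × a_σ(n)` is rationally equivalent to zero for all
`Γ`-invariant zero-cycles `a_1, ..., a_n` on `∏ C_t` whose push forwards to the products with one
factor less are rationally equivalent to zero. -/
theorem result (k : Type) [Field k] [CharZero k] [IsAlgClosed k] (T : Type) [Fintype T]
    [DecidableEq T] (C : T → Cov k) (hbal : ∀ t, ∀ χ : (C t).Chr, χ ≠ 1 → Cov.Bal χ)
    (Γ : Subgroup (GX C)) (n : ℕ) (hn : pgX Γ < n) (a : Fin n → PtX C →₀ ℚ)
    (hinv : ∀ j, InvX Γ (a j)) (hprim : ∀ j, PrimX (a j)) :
    RatX (fun p : Fin n × T => p.2) (altX a) :=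
  voisin_cov hbal Γ hn a hinv hprim

end Pool.Agent.Results.MP_83b46e_ag.BalancedAbelianCovers
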