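import Pool.Agent.H833.EK.FibrMain

/-!
# Voisin's conjecture for K3 surfaces with a fibration in curves of genus one

The theorem proves `∑ σ, sgn(σ) a_σ(1) × ⋯ × a_σ(n) = 0` in `CH₀(Sⁿ)_ℚ` for `n ≥ 2` and all zero-cycles
`a_1, …, a_n` of degree zero on a variety `S` with a fibration in curves of genus one over the
projective line whose Jacobian is `Y² = X³ + a(u) X + b(u)` with `a` of degree at most `8` and `b` of
degree at most `12`. The surfaces `S` of this kind with `p_g = 1` are the K3 surfaces with a fibration in
curves of genus one (with or without a section), for example all K3 surfaces with Picard number at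
least `5`, and the surfaces of Kodaira dimension one with `p_g = 1` and `q = 0`.

In the first two parts the fibration has a section or a `2`-section and `S` is given by an equation. Let
`c_0, …, c_4` be binary forms over an algebraically closed field `k` of characteristic zero, `c_j`
of degree `4 + (j - 2) e` (and zero if this is negative), and let `X` be the surface
`y² = c_0(s, t) v⁴ + c_1(s, t) v³ w + c_2(s, t) v² w² + c_3(s, t) v w³ + c_4(s, t) w⁴`, a double cover
of the rational ruled surface `F_e` with a branch divisor in the class `-2 K`. If the branch curve is
reduced with simple singularities, the minimal resolution of `X` is a K3 surface, and all K3 surfaces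
with a fibration in curves of genus one (over the line) which has a section or a `2`-section are
obtained in this way. Examples are

* `e = 4`, `c = (0, 1, 0, a, b)`: the Weierstrass fibrations `y² = x³ + a(s, t) x + b(s, t)`, that is,
  all elliptic K3 surfaces with a section;
* `e = 1`: the double planes branched along a sextic with a singular point;
* `e = 0`: the double covers of `ℙ¹ × ℙ¹` branched along a curve of bidegree `(4, 4)`.

Here `S` is `X` itself or a resolution of `X` whose fibres are connected by chains of rational curves,
such as the K3 surface. No assumption is made on the singularities of `X`.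

In the third part `S` is an arbitrary variety with such a fibration, see `GenusOne`; a coordinate `u` on the
line is used for which the fibre at infinity is singular, and there may be multiple fibres.

The proof. The words `(x - x') × (z - z') - (z - z') × (x - x')`, where `x`, `x'` and `z`, `z'` lie in
the same fibres, only depend on the classes of `x - x'` and `z - z'` in the Jacobian
`Y² = X³ + a(u) X + b(u)`. For points `P_1 = (u_1, X_1, Y_1)` and `P_2 = (u_2, X_2, Y_2)` of the
Jacobian put `f_i(X) = X³ + a(u_i) X + b(u_i)`. The point `(X_1, X_2)` lies on the plane cubic
`f_2(X_2) = λ f_1(X_1)`, `λ = (Y_2 / Y_1)²`, and the sums of the words over the three points of the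
cubic on a line are constant. Hence the words factor through the Jacobian of the cubic,
`y² = 4 x³ - 12 a_1 a_2 x - (t + D_1 D_2 / t - 54 b_1 b_2)`, `t = D_1 λ`, `D_i = 4 a_i³ + 27 b_i²`,
which only depends on the set `{u_1, u_2}`. So they are determined by a point of a hypersurface of
degree `24` in the weighted projective space `P(1, 1, 1, 4, 6, 12)`. Through its general point there
is a rational curve (`13` unknowns, `12` equations, as `D_1 D_2` is a product of `24` linear forms on
the plane of the sets `{u_1, u_2}`). Where it meets the set `D_1 = 0` one of the two points lies on a
singular fibre, which is rational, so that the word vanishes there, and hence everywhere.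
-/

set_option autoImplicit false

namespace Pool.Agent.Results.MP_83b46e_ag.EllipticK3

open Pool.Agent.H833.EK Polynomial

/-- **Voisin's conjecture for K3 surfaces with a fibration in curves of genus one.** -/
theorem result {k : Type} [Field k] [CharZero k] [IsAlgClosed k] (n : ℕ) (hn : 2 ≤ n) :
    (∀ (e : ℕ) (c : Fin 5 → MvPolynomial (Fin 2) k), Wts e c → (dcover e c).Voisin n ∧
      ∀ (S : Geo k) (π : Geo.Hom S (dcover e c)), Geo.Resolves π → S.Voisin n) ∧
    ∀ (S : Geo k) (a b : k[X]) (r : k), S.Nice → a.natDegree ≤ 8 → b.natDegree ≤ 12 →
      (disc a b).eval r = 0 → GenusOne S a b → S.Voisin n :=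
  ⟨fun _ _ hc => ⟨voisin_dcover hc hn, fun _ _ hπ => voisin_dcover_res hc hn hπ⟩,
    fun _ _ _ _ hS ha hb hr T => T.voisin hS ha hb hr hn⟩

end Pool.Agent.Results.MP_83b46e_ag.EllipticK3
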