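import Pool.Agent.H836.VoisinMain

/-!
# Voisin's conjecture beyond half of the transcendental rank

Let `S` be a smooth projective surface, `e` the projector of the transcendental part `t_2(S)` of its
motive (Kahn, Murre, Pedrini) and `t = b_2 - ρ` its dimension. The zero-cycles of the motive
`(S, e)` are the Albanese-trivial zero-cycles on `S` with rational coefficients. We suppose that
`t_2(S)` is finite-dimensional in the sense of Kimura; this is known for example if `S` is dominated
by a product of curves. By Kimura the alternating product of `n` Albanese-trivial zero-cycles
vanishes for `n > t`. Voisin's conjecture says that it vanishes for `n > p_g`; here `2 p_g ≤ t`, with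
equality if `S` has the maximal Picard number `ρ = h^{1,1}`.

**Theorem.** Let `a_i`, `b_j` be Albanese-trivial zero-cycles.

1. If `k + l > t`, then `(a_1 ∧ ⋯ ∧ a_k) × (b_1 ∧ ⋯ ∧ b_l) = 0`. In particular, for all `n > t / 2`
   the exterior product of two alternating products of `n` zero-cycles vanishes.
2. If the determinant of `t_2(S)` is algebraic, then `a_1 ∧ ⋯ ∧ a_n = 0` for all `n > t / 2`.

The condition in 2 says that the Hodge class which generates the line `Λ^t H^2(S)_tr` in
`H^(2t)(S^t)` is algebraic: it is the case of one class of the Hodge conjecture. So for the surfaces
with the maximal Picard number, a finite-dimensional motive and an algebraic determinant, Voisin's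
conjecture holds (for rational, hence for integral coefficients), in the whole range `n > p_g`.

The theorem is stated for the zero-cycles of a symmetric projector `e` on a variety `X` of any
dimension `d > 0`, for which some exterior power of `(X, e)` vanishes.

The ideas. 1: the matrix of size `k + l` with the entries `e(x_i, y_j)` has determinant zero; the
zero-cycles can be inserted in `k` of its rows and in `l` of its columns, and they are orthogonal to
each other. 2: the minors of size `t` satisfy `Λ(x; y) Λ(z; w) = Λ(x; w) Λ(z; y)`, because those of
size `t + 1` vanish. It follows that `Λ(x; y)` is a multiple of `D(x) D(y)` for a cycle `D` of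
codimension `t d / 2` on `X^t`. The product of `D` and of `n > t / 2` zero-cycles at different
points is zero, since its codimension is larger than the dimension `t d`; and the alternating
product of the zero-cycles is obtained from it by contractions.
-/

open CategoryTheory CategoryTheory.Limits AlgebraicGeometry
open Pool.Agent.H914 Pool.Agent.H914.VarClass Pool.Agent.H914.VarClass.Obj
open Pool.Agent.R903 Pool.Agent.H836

universe u v

namespace Pool.Agent.Results.MP_83b46e_ag.HalfTranscendentalRank

/-- Let `e` be a symmetric projector on a variety `X` of positive dimension (for example a surface
and the projector of its transcendental part) such that some exterior power of the motive `(X, e)`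
vanishes, and let `t = motDim e` be its dimension. The exterior product of two alternating products
of zero-cycles of `(X, e)` vanishes if there are more than `t` zero-cycles altogether. If the
determinant of `(X, e)` is algebraic, the alternating product of more than `t / 2` zero-cycles
vanishes. -/
theorem result {k : Type u} [Field k] {𝒱 : VarClass k} {C : ChowTheory.{u, v} 𝒱}
    (hP : C.Polarized) (X : 𝒱.Obj) (hX : 0 < X.dim) (e : C.CH (X.prod X))
    (he : IsEvenSummand C e) :
    (∀ m n : ℕ, C.motDim e < (m + 1) + (n + 1) → ∀ (a : Fin (m + 1) → C.CH X)
      (b : Fin (n + 1) → C.CH X), (∀ i, IsZeroCycleOf C e (a i)) →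
        (∀ j, IsZeroCycleOf C e (b j)) → extProd C (altProd C a) (altProd C b) = 0) ∧
    (DetAlgebraic C e → ∀ m : ℕ, C.motDim e < 2 * (m + 1) → ∀ a : Fin (m + 1) → C.CH X,
      (∀ i, IsZeroCycleOf C e (a i)) → altProd C a = 0) :=
  zeroCycles_main hP hX he

end Pool.Agent.Results.MP_83b46e_ag.HalfTranscendentalRank
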